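import Pool.Agent.U856.BM.Stm1b

/-!
# Project BM, package CR (corrected form): crossing the cylinder
-/

set_option autoImplicit false

open Set Filter Topology ComplexConjugate Pool.Agent.U856.BM

namespace Pool.Agent.U776.BM.CR

theorem trig {a b v α : ℝ} (h : Ok a b v α) : 1 / 2 < Real.sin α ∧ Real.sin α ≤ 1 ∧ 0 < Real.cos α ∧
    Real.cos α ≤ 1 := by
  obtain ⟨-, -, -, -, -, -, h7, h8⟩ := h
  refine ⟨?_, Real.sin_le_one _, ?_, Real.cos_le_one _⟩
  · have h1 := Real.sin_gt_sub_cube (x := α) (by linarith)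
    have h2 : α ^ 3 < 0.82 ^ 3 := pow_lt_pow_left₀ h8 (by linarith) (by norm_num)
    norm_num at h2
    linarith
  · apply Real.cos_pos_of_mem_Ioo
    have := Real.pi_gt_three
    constructor <;> linarith

theorem fo_of {a X : ℝ} (ha : 0 < a) (h0 : 0 < X) (h1 : X < a) (m : ℕ) :
    fo a (X - 2 * a * m) = -X := by
  unfold fo
  have h2 : (X - 2 * a * m) / (2 * a) = X / (2 * a) - ((m : ℤ) : ℝ) := by
    field_simp
    push_cast
    ring
  have h3 : round (X / (2 * a)) = 0 := by
    rw [round_eq_zero_iff]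
    constructor
    · have : 0 < X / (2 * a) := by positivity
      linarith
    · rw [div_lt_iff₀ (by positivity)]; linarith
  rw [h2, round_sub_intCast, h3]
  have h4 : X - 2 * a * m - 2 * a * ((0 - (m : ℤ) : ℤ) : ℝ) = X := by
    push_cast
    ring
  rw [h4, abs_of_pos h0]

theorem floor_of {a X : ℝ} (ha : 0 < a) (h0 : 0 < X) (h1 : X < a) (m : ℕ) :
    ¬ Odd ⌊(X - 2 * a * m) / a⌋ := by
  have h2 : (X - 2 * a * m) / a = X / a - ((2 * m : ℤ) : ℝ) := by
    field_simp
    push_cast
    ring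
  have h3 : ⌊X / a⌋ = 0 := by
    rw [Int.floor_eq_zero_iff]
    constructor
    · positivity
    · rw [div_lt_one ha]; exact h1
  rw [h2, Int.floor_sub_intCast, h3]
  rw [Int.not_odd_iff_even]
  exact ⟨-(m : ℤ), by ring⟩

theorem grid_of {a X : ℝ} (ha : 0 < a) (h0 : 0 < X) (h1 : X < a) (m : ℕ) (k : ℤ) :
    X - 2 * a * m ≠ k * a := by
  intro h
  have h2 : X = ((k + 2 * m : ℤ) : ℝ) * a := by push_cast; linarith
  rw [h2] at h0 h1
  have h3 : (0 : ℝ) < ((k + 2 * m : ℤ) : ℝ) := by
    by_contra hc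
    push Not at hc
    have := mul_nonpos_of_nonpos_of_nonneg hc ha.le
    linarith
  have h4 : ((k + 2 * m : ℤ) : ℝ) < 1 := by
    by_contra hc
    push Not at hc
    have := mul_le_mul_of_nonneg_right hc ha.le
    linarith
  have h5 : (0 : ℤ) < k + 2 * m := by exact_mod_cast h3
  have h6 : (k + 2 * m : ℤ) < 1 := by exact_mod_cast h4
  omega

theorem rf_neg (n f : ℂ) : rf n (-f) = -rf n f := by
  unfold rf dt
  apply Complex.ext <;> simp <;> ring

theorem rf_sub (n f g : ℂ) : rf n f - rf n g = rf n (f - g) := by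
  unfold rf dt
  apply Complex.ext <;> simp <;> ring

theorem dt_rf (n f : ℂ) (h : dt n n = 1) : dt n (rf n f) = -dt n f := by
  have : dt n (rf n f) = dt n f - 2 * dt n f * dt n n := by
    unfold rf dt
    simp
    ring
  rw [this, h]
  ring

theorem rf_rf (n f : ℂ) (h : dt n n = 1) : rf n (rf n f) = f := by
  have h1 := dt_rf n f h
  have : rf n (rf n f) = rf n f - (2 * dt n (rf n f)) • n := rfl
  rw [this, h1]
  unfold rf
  apply Complex.ext <;> simp

theorem norm_sq_dt (z : ℂ) : ‖z‖ ^ 2 = dt z z := by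
  rw [Complex.sq_norm, Complex.normSq_apply]
  rfl

theorem norm_rf (n f : ℂ) (h : dt n n = 1) : ‖rf n f‖ = ‖f‖ := by
  have h1 : ‖rf n f‖ ^ 2 = ‖f‖ ^ 2 := by
    rw [norm_sq_dt, norm_sq_dt]
    have : dt (rf n f) (rf n f) = dt f f - 4 * (dt n f) ^ 2 + 4 * (dt n f) ^ 2 * dt n n := by
      unfold rf dt
      simp
      ring
    rw [this, h]
    ring
  exact (pow_left_inj₀ (norm_nonneg _) (norm_nonneg _) (by norm_num)).1 h1

theorem n3 (α : ℝ) : nS α 3 = ⟨Real.sin α, Real.cos α⟩ := rfl

theorem dt_n3 (α : ℝ) (z : ℂ) : dt (nS α 3) z = Real.sin α * z.re + Real.cos α * z.im := by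
  rw [n3]; rfl

theorem n3_unit (α : ℝ) : dt (nS α 3) (nS α 3) = 1 := by
  rw [n3]
  unfold dt
  have := Real.sin_sq_add_cos_sq α
  nlinarith

theorem int_iff (hSD : S_SD) {a b v α : ℝ} (h : Ok a b v α) (z : ℂ) : z ∈ interior (Tb a b v α) ↔
    (-a < z.re ∧ -b < z.im ∧ z.re < 0 ∧ Real.sin α * z.re + Real.cos α * z.im < -v ∧ z.im < 0) := by
  rw [(hSD a b v α h).1 z]
  constructor
  · intro h1
    have h10 := h1 0
    have h11 := h1 1
    have h12 := h1 2
    have h13 := h1 3
    have h14 := h1 4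
    simp [dt, nS, oS] at h10 h11 h12 h13 h14
    exact ⟨by linarith, by linarith, by linarith, by linarith, by linarith⟩
  · rintro ⟨h0, h1, h2, h3, h4⟩ j
    fin_cases j <;> simp [dt, nS, oS] <;> linarith

theorem side (hSD : S_SD) {a b v α : ℝ} (h : Ok a b v α) (z : ℂ)
    (h0 : -a < z.re) (h1 : -b < z.im) (h2 : z.re < 0) (h3 : Real.sin α * z.re + Real.cos α * z.im = -v)
    (h4 : z.im < 0) : SidePt (Tb a b v α) z (nS α 3) := by
  apply (hSD a b v α h).2.1 z 3
  · rw [dt_n3, h3]; rfl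
  · intro k hk
    fin_cases k
    · simp [dt, nS, oS]; linarith
    · simp [dt, nS, oS]; linarith
    · simp [dt, nS, oS]; linarith
    · exact absurd rfl hk
    · simp [dt, nS, oS]; linarith

/-- the inner points near a point of the cut -/
theorem near (hSD : S_SD) {a b v α : ℝ} (h : Ok a b v α) (z g : ℂ)
    (h0 : -a < z.re) (h1 : -b < z.im) (h2 : z.re < 0) (h3 : Real.sin α * z.re + Real.cos α * z.im = -v)
    (h4 : z.im < 0) (hg : ‖g‖ = 1) (hg1 : Real.sin α * g.re + Real.cos α * g.im < 0) :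
    ∃ r0 : ℝ, 0 < r0 ∧ ∀ r : ℝ, 0 < r → r < r0 → z + r • g ∈ interior (Tb a b v α) := by
  have hre : |g.re| ≤ 1 := hg ▸ Complex.abs_re_le_norm g
  have him : |g.im| ≤ 1 := hg ▸ Complex.abs_im_le_norm g
  rw [abs_le] at hre him
  refine ⟨min (min (a + z.re) (b + z.im)) (min (-z.re) (-z.im)), by
    apply lt_min <;> apply lt_min <;> linarith, ?_⟩
  intro r hr hr1
  rw [int_iff hSD h]
  have h11 : r < a + z.re := lt_of_lt_of_le hr1 ((min_le_left _ _).trans (min_le_left _ _))
  have h12 : r < b + z.im := lt_of_lt_of_le hr1 ((min_le_left _ _).trans (min_le_right _ _))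
  have h13 : r < -z.re := lt_of_lt_of_le hr1 ((min_le_right _ _).trans (min_le_left _ _))
  have h14 : r < -z.im := lt_of_lt_of_le hr1 ((min_le_right _ _).trans (min_le_right _ _))
  have e1 : (z + r • g).re = z.re + r * g.re := by simp
  have e2 : (z + r • g).im = z.im + r * g.im := by simp
  rw [e1, e2]
  refine ⟨by nlinarith, by nlinarith, by nlinarith, ?_, by nlinarith⟩
  have : Real.sin α * (z.re + r * g.re) + Real.cos α * (z.im + r * g.im) =
    (Real.sin α * z.re + Real.cos α * z.im) + r * (Real.sin α * g.re + Real.cos α * g.im) := by ring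
  rw [this, h3]
  nlinarith

/-- the crossing orbit, for a given segment -/
theorem cross (hTR : S_TR) (hSD : S_SD) (hUN : S_UN) {a b v α : ℝ} (h : Ok a b v α) (A A' g : ℂ) (L : ℝ)
    (n : ℕ)
    (hA0 : -a < A.re) (hA1 : -b < A.im) (hA2 : A.re < 0) (hA3 : Real.sin α * A.re + Real.cos α * A.im = -v)
    (hA4 : A.im < 0)
    (hB0 : -a < A'.re) (hB1 : -b < A'.im) (hB2 : A'.re < 0)
    (hB3 : Real.sin α * A'.re + Real.cos α * A'.im = -v) (hB4 : A'.im < 0)
    (hg : ‖g‖ = 1) (hg1 : g.re < 0) (hg2 : g.im < 0) (hL : 0 < L)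
    (hre : A.re + L * g.re = -(2 * a * (n + 1)) - A'.re) (him : A.im + L * g.im = -(2 * b * n) - A'.im)
    (hav : ∀ s : ℝ, 0 < s → s < L → ∀ i j : ℤ, v < |(A + s • g).re - 2 * a * i| * Real.sin α +
      |(A + s • g).im - 2 * b * j| * Real.cos α)
    (hgr : ∀ s : ℝ, 0 < s → s < L → ¬ ((∃ k : ℤ, (A + s • g).re = k * a) ∧ ∃ k : ℤ, (A + s • g).im = k * b)) :
    ∃ u0 : ℝ, 0 < u0 ∧ ∀ u u' : ℝ, 0 < u → u < u0 → 0 < u' → u' < u0 →
      Orb (Tb a b v α) (A + u' • rf (nS α 3) (-g)) (-rf (nS α 3) (-g)) (u' + L + u)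
        (A' + u • rf (nS α 3) (-g)) (rf (nS α 3) (-g)) := by
  obtain ⟨ht1, ht2, ht3, ht4⟩ := trig h
  have ha : 0 < a := by linarith [h.1]
  have hb : 0 < b := by linarith [h.2.2.1]
  have hdg : Real.sin α * g.re + Real.cos α * g.im < 0 := by nlinarith
  set e : ℂ := rf (nS α 3) (-g) with he
  have hue : ‖e‖ = 1 := by rw [he, norm_rf _ _ (n3_unit α), norm_neg, hg]
  have hde : Real.sin α * e.re + Real.cos α * e.im < 0 := by
    rw [← dt_n3, he, dt_rf _ _ (n3_unit α), dt_n3]
    simp
    linarith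
  obtain ⟨r1, hr1, hr1'⟩ := near hSD h A g hA0 hA1 hA2 hA3 hA4 hg hdg
  obtain ⟨r2, hr2, hr2'⟩ := near hSD h A e hA0 hA1 hA2 hA3 hA4 hue hde
  obtain ⟨r3, hr3, hr3'⟩ := near hSD h A' g hB0 hB1 hB2 hB3 hB4 hg hdg
  obtain ⟨r4, hr4, hr4'⟩ := near hSD h A' e hB0 hB1 hB2 hB3 hB4 hue hde
  have hsA := side hSD h A hA0 hA1 hA2 hA3 hA4
  have hsB := side hSD h A' hB0 hB1 hB2 hB3 hB4
  have hgre : |g.re| ≤ 1 := hg ▸ Complex.abs_re_le_norm g
  have hgim : |g.im| ≤ 1 := hg ▸ Complex.abs_im_le_norm g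
  rw [abs_le] at hgre hgim
  -- the small times
  obtain ⟨p, hp0, hp1, hp3, hpL, hpa, hpb⟩ : ∃ p : ℝ, 0 < p ∧ p < r1 ∧ p < r3 ∧ p < L / 2 ∧ p < a + A'.re ∧
      p < b + A'.im := by
    refine ⟨min (min (min r1 r3) (L / 2)) (min (a + A'.re) (b + A'.im)) / 2, ?_, ?_, ?_, ?_, ?_, ?_⟩
    · have : 0 < min (min (min r1 r3) (L / 2)) (min (a + A'.re) (b + A'.im)) := by
        refine lt_min (lt_min (lt_min hr1 hr3) (by linarith)) (lt_min (by linarith) (by linarith))
      linarith
    all_goals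
      have h0 : 0 < min (min (min r1 r3) (L / 2)) (min (a + A'.re) (b + A'.im)) := by
        refine lt_min (lt_min (lt_min hr1 hr3) (by linarith)) (lt_min (by linarith) (by linarith))
      have h1 : min (min (min r1 r3) (L / 2)) (min (a + A'.re) (b + A'.im)) ≤ r1 :=
        (min_le_left _ _).trans ((min_le_left _ _).trans (min_le_left _ _))
      have h2 : min (min (min r1 r3) (L / 2)) (min (a + A'.re) (b + A'.im)) ≤ r3 :=
        (min_le_left _ _).trans ((min_le_left _ _).trans (min_le_right _ _))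
      have h3 : min (min (min r1 r3) (L / 2)) (min (a + A'.re) (b + A'.im)) ≤ L / 2 :=
        (min_le_left _ _).trans (min_le_right _ _)
      have h4 : min (min (min r1 r3) (L / 2)) (min (a + A'.re) (b + A'.im)) ≤ a + A'.re :=
        (min_le_right _ _).trans (min_le_left _ _)
      have h5 : min (min (min r1 r3) (L / 2)) (min (a + A'.re) (b + A'.im)) ≤ b + A'.im :=
        (min_le_right _ _).trans (min_le_right _ _)
      linarith
  refine ⟨min r2 r4, lt_min hr2 hr4, ?_⟩
  intro u u' hu hu1 hu' hu'1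
  have hu2 : u < r4 := lt_of_lt_of_le hu1 (min_le_right _ _)
  have hu'2 : u' < r2 := lt_of_lt_of_le hu'1 (min_le_left _ _)
  -- the first piece
  have key : ∀ s : ℝ, A + p • g + s • g = A + (p + s) • g := by
    intro s
    rw [add_smul, add_assoc]
  have O1 : Orb (Tb a b v α) (A + u' • e) (-e) (0 + u' + p) (A + p • g) g := by
    have S0 := Orb.start (P := Tb a b v α) (x := A + u' • e) (e := -e) 0 le_rfl (by
      intro s hs
      have : s = 0 := le_antisymm hs.2 hs.1
      subst this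
      simpa using hr2' u' hu' hu'2)
    have S1 := Orb.bounce (P := Tb a b v α) (x := A + u' • e) (e := -e) 0 u' p _ _ (nS α 3) S0 hu' hp0 (by
      intro r hr
      have : A + u' • e + (0 : ℝ) • -e + r • -e = A + (u' - r) • e := by
        rw [sub_smul]; simp; ring
      rw [this]
      exact hr2' _ (by linarith [hr.2]) (by linarith [hr.1])) (by
      have : A + u' • e + (0 : ℝ) • -e + u' • -e = A := by simp
      rw [this]
      exact hsA) (by
      intro r hr
      have : A + u' • e + (0 : ℝ) • -e + u' • -e = A := by simp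
      rw [this, rf_neg, he, rf_rf _ _ (n3_unit α), neg_neg]
      exact hr1' r hr.1 (lt_of_le_of_lt hr.2 hp1))
    have e1 : A + u' • e + (0 : ℝ) • -e + u' • -e = A := by simp
    have e2 : rf (nS α 3) (-e) = g := by rw [rf_neg, he, rf_rf _ _ (n3_unit α), neg_neg]
    rw [e1, e2] at S1
    exact S1
  -- the middle piece
  have hT : 0 ≤ L - 2 * p := by linarith
  have e3 : A + p • g + (L - 2 * p) • g = A + (L - p) • g := by
    rw [key]; congr 2; ring
  have e4 : (A + (L - p) • g).re = (-A'.re - p * g.re) - 2 * a * ((n + 1 : ℕ) : ℝ) := by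
    simp
    linarith
  have e5 : (A + (L - p) • g).im = (-A'.im - p * g.im) - 2 * b * ((n : ℕ) : ℝ) := by
    simp
    linarith
  have X1 : 0 < -A'.re - p * g.re := by nlinarith
  have X2 : -A'.re - p * g.re < a := by nlinarith
  have Y1 : 0 < -A'.im - p * g.im := by nlinarith
  have Y2 : -A'.im - p * g.im < b := by nlinarith
  have O2 : Orb (Tb a b v α) (A + p • g) g (L - 2 * p) (A' + p • g) (-g) := by
    have U := hUN a b v α (L - 2 * p) (A + p • g) g h hg hg1.ne hg2.ne hT (hr1' p hp0 hp1) (by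
      intro s hs
      rw [key]
      have := hav (p + s) (by linarith [hs.1]) (by linarith [hs.2])
        (round ((A + (p + s) • g).re / (2 * a))) (round ((A + (p + s) • g).im / (2 * b)))
      unfold fo
      linarith) (by
      intro s hs
      rw [key]
      exact hgr _ (by linarith [hs.1]) (by linarith [hs.2])) (by
      intro k
      rw [e3, e4]
      exact grid_of ha X1 X2 _ k) (by
      intro k
      rw [e3, e5]
      exact grid_of hb Y1 Y2 _ k)
    rw [e3, e4, e5, fo_of ha X1 X2, fo_of hb Y1 Y2, if_neg (floor_of ha X1 X2 _), if_neg (floor_of hb Y1 Y2 _)]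
      at U
    have e6 : (⟨-(-A'.re - p * g.re), -(-A'.im - p * g.im)⟩ : ℂ) = A' + p • g := by
      apply Complex.ext <;> simp <;> ring
    have e7 : (⟨-1 * g.re, -1 * g.im⟩ : ℂ) = -g := by
      apply Complex.ext <;> simp
    rw [e6, e7] at U
    exact U
  have O3 := hTR _ _ _ _ _ _ _ _ _ O1 O2
  -- the last piece
  have O4 := Orb.bounce (P := Tb a b v α) (x := A + u' • e) (e := -e) _ p u _ _ (nS α 3) O3 hp0 hu (by
      intro r hr
      have : A' + p • g + r • -g = A' + (p - r) • g := by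
        rw [sub_smul]; simp; ring
      rw [this]
      exact hr3' _ (by linarith [hr.2]) (by linarith [hr.1])) (by
      have : A' + p • g + p • -g = A' := by simp
      rw [this]
      exact hsB) (by
      intro r hr
      have : A' + p • g + p • -g = A' := by simp
      rw [this]
      exact hr4' r hr.1 (lt_of_le_of_lt hr.2 hu2))
  have e8 : A' + p • g + p • -g = A' := by simp
  rw [e8, ← he] at O4
  have e9 : 0 + u' + p + (L - 2 * p) + p + u = u' + L + u := by ring
  rw [e9] at O4
  exact O4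

/-- a point on the cut -/
theorem vA_re (v α η : ℝ) : (vA v α η).re = -(v / Real.sin α) + η * Real.cos α := by
  simp [vA, VV]

theorem vA_im (v α η : ℝ) : (vA v α η).im = -(η * Real.sin α) := by
  simp [vA, VV]

theorem vA_cut {a b v α : ℝ} (h : Ok a b v α) (η : ℝ) :
    Real.sin α * (vA v α η).re + Real.cos α * (vA v α η).im = -v := by
  obtain ⟨ht1, ht2, ht3, ht4⟩ := trig h
  rw [vA_re, vA_im]
  have : Real.sin α ≠ 0 := by linarith
  field_simp
  ring

theorem vA_near {v α η : ℝ} (hη : 0 ≤ η) : ‖vA v α η - VV v α‖ = η := by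
  have h1 : ‖(⟨Real.cos α, -Real.sin α⟩ : ℂ)‖ = 1 := by
    have h2 : ‖(⟨Real.cos α, -Real.sin α⟩ : ℂ)‖ ^ 2 = 1 := by
      rw [norm_sq_dt]
      unfold dt
      have := Real.sin_sq_add_cos_sq α
      nlinarith
    nlinarith [norm_nonneg (⟨Real.cos α, -Real.sin α⟩ : ℂ)]
  unfold vA
  rw [add_sub_cancel_left, norm_smul, h1, mul_one, Real.norm_of_nonneg hη]

theorem vA_box {a b v α η : ℝ} (h : Ok a b v α) (h0 : 0 < η) (h1 : η < 1 / 100) :
    -a < (vA v α η).re ∧ -b < (vA v α η).im ∧ (vA v α η).re < 0 ∧ (vA v α η).im < 0 := by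
  obtain ⟨ht1, ht2, ht3, ht4⟩ := trig h
  obtain ⟨o1, o2, o3, o4, o5, o6, o7, o8⟩ := h
  rw [vA_re, vA_im]
  have hp1 : v / Real.sin α < 0.22 := by
    rw [div_lt_iff₀ (by linarith)]
    linarith
  have hp2 : 0.1 < v / Real.sin α := by
    rw [lt_div_iff₀ (by linarith)]
    linarith
  have e1 : η * Real.cos α < 1 / 100 := by nlinarith
  have e2 : 0 < η * Real.cos α := by positivity
  have e3 : η * Real.sin α < 1 / 100 := by nlinarith
  have e4 : 0 < η * Real.sin α := by
    have : 0 < Real.sin α := by linarith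
    positivity
  refine ⟨?_, ?_, ?_, ?_⟩ <;> linarith

/-- the estimates for the crossing vector -/
theorem est {a b v α : ℝ} (h : Ok a b v α) (σ : ℝ) (hσ : 0 < σ) (hσ1 : σ < 1 / 50) (n : ℕ) (hn : 1 ≤ n)
    (r q : ℝ) (hr : r = 2 * a * n + 2 * (a - v / Real.sin α) + σ * Real.cos α)
    (hq : q = 2 * b * n - σ * Real.sin α) (L : ℝ) (hL : 0 < L) (hL2 : L ^ 2 = r ^ 2 + q ^ 2)
    (g : ℂ) (hg : L • g = ⟨-r, -q⟩) :
    ‖-g - dd a b‖ ≤ 1 / n ∧
    |L - (n * ll a b + 2 * (a - v / Real.sin α) * a / √(a ^ 2 + b ^ 2))| ≤ 1 / n + 3 / 2 * σ := by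
  obtain ⟨ht1, ht2, ht3, ht4⟩ := trig h
  obtain ⟨o1, o2, o3, o4, o5, o6, o7, o8⟩ := h
  have hn' : (1 : ℝ) ≤ n := by exact_mod_cast hn
  have hp1 : v / Real.sin α < 0.22 := by
    rw [div_lt_iff₀ (by linarith)]
    linarith
  have hp2 : 0.1 < v / Real.sin α := by
    rw [lt_div_iff₀ (by linarith)]
    linarith
  set p := v / Real.sin α with hp
  set S := √(a ^ 2 + b ^ 2) with hS
  have hS2 : S ^ 2 = a ^ 2 + b ^ 2 := Real.sq_sqrt (by positivity)
  have hS0 : 0 ≤ S := Real.sqrt_nonneg _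
  have hS1 : 1.9 < S := by
    by_contra hc
    push Not at hc
    have : S ^ 2 ≤ 1.9 ^ 2 := pow_le_pow_left₀ hS0 hc 2
    nlinarith
  have hSp : 0 < S := by linarith
  set τ := (a * r + b * q) / S with hτ
  set κ := (a * q - b * r) / S with hκ
  have hid : L ^ 2 = τ ^ 2 + κ ^ 2 := by
    rw [hL2, hτ, hκ, div_pow, div_pow, ← add_div, eq_div_iff (by positivity), hS2]
    ring
  have hτ1 : τ = n * (2 * S) + 2 * (a - p) * a / S + σ * (a * Real.cos α - b * Real.sin α) / S := by
    rw [hτ, hr, hq]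
    have e1 : a * (2 * a * n + 2 * (a - p) + σ * Real.cos α) + b * (2 * b * n - σ * Real.sin α) =
      2 * n * (a ^ 2 + b ^ 2) + 2 * (a - p) * a + σ * (a * Real.cos α - b * Real.sin α) := by ring
    rw [e1, ← hS2]
    field_simp
  have hκ1 : |κ| ≤ 2 := by
    rw [hκ, hr, hq]
    have e1 : a * (2 * b * n - σ * Real.sin α) - b * (2 * a * n + 2 * (a - p) + σ * Real.cos α) =
      -(2 * b * (a - p) + σ * (a * Real.sin α + b * Real.cos α)) := by ring
    rw [e1, neg_div, abs_neg, abs_of_nonneg]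
    · rw [div_le_iff₀ hSp]
      have e2 : a * Real.sin α + b * Real.cos α ≤ 2.76 := by nlinarith
      have e3 : 0 ≤ a * Real.sin α + b * Real.cos α := by
        have : 0 < Real.sin α := by linarith
        positivity
      have e4 : σ * (a * Real.sin α + b * Real.cos α) ≤ 1 / 50 * 2.76 := by nlinarith
      have e5 : 2 * b * (a - p) ≤ 2 * 1.75 * 1.01 := by nlinarith
      nlinarith
    · have : 0 < Real.sin α := by linarith
      have : 0 < a - p := by linarith
      positivity
  have hdev : |σ * (a * Real.cos α - b * Real.sin α) / S| ≤ 3 / 2 * σ := by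
    rw [abs_div, abs_mul, abs_of_pos hσ, abs_of_pos hSp, div_le_iff₀ hSp]
    have e2 : |a * Real.cos α - b * Real.sin α| ≤ 2.76 := by
      rw [abs_le]
      constructor <;> nlinarith
    have e3 : σ * |a * Real.cos α - b * Real.sin α| ≤ σ * 2.76 := by
      exact mul_le_mul_of_nonneg_left e2 hσ.le
    nlinarith
  have hτ2 : 2 * (n : ℝ) ≤ τ := by
    rw [hτ1]
    have e1 := (abs_le.1 hdev).1
    have e2 : 0 ≤ 2 * (a - p) * a / S := by
      have : 0 < a - p := by linarith
      positivity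
    nlinarith
  have hτL : τ ≤ L := by
    by_contra hc
    push Not at hc
    have : L ^ 2 < τ ^ 2 := pow_lt_pow_left₀ hc hL.le (by norm_num)
    nlinarith [sq_nonneg κ]
  have hκ2 : κ ^ 2 ≤ 4 := by
    have := sq_abs κ
    rw [← this]
    nlinarith [abs_nonneg κ]
  have hdiff : (L - τ) * (4 * n) ≤ 4 := by
    have e1 : (L - τ) * (L + τ) = κ ^ 2 := by nlinarith
    have e2 : 4 * (n : ℝ) ≤ L + τ := by linarith
    nlinarith [mul_le_mul_of_nonneg_left e2 (sub_nonneg.2 hτL)]
  have hdiff2 : L - τ ≤ 1 / n := by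
    rw [le_div_iff₀ (by linarith)]
    linarith
  constructor
  · have hdd : dt (dd a b) (dd a b) = 1 := by
      unfold dt dd
      simp only
      rw [← hS]
      field_simp
      rw [hS2]
    have hgg : L ^ 2 * dt g g = L ^ 2 := by
      have e1 : L * g.re = -r := by
        have := congrArg Complex.re hg
        simpa using this
      have e2 : L * g.im = -q := by
        have := congrArg Complex.im hg
        simpa using this
      have : L ^ 2 * dt g g = (L * g.re) ^ 2 + (L * g.im) ^ 2 := by unfold dt; ring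
      rw [this, e1, e2, hL2]
      ring
    have hgd : L * dt g (dd a b) = -τ := by
      have e1 : L * g.re = -r := by
        have := congrArg Complex.re hg
        simpa using this
      have e2 : L * g.im = -q := by
        have := congrArg Complex.im hg
        simpa using this
      have : L * dt g (dd a b) = (L * g.re) * (a / S) + (L * g.im) * (b / S) := by
        unfold dt dd
        simp only
        rw [← hS]
        ring
      rw [this, e1, e2, hτ]
      ring
    have hgg' : dt g g = 1 := by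
      have : L ^ 2 ≠ 0 := by positivity
      exact mul_left_cancel₀ this (by rw [hgg, mul_one])
    have hsq : L * ‖-g - dd a b‖ ^ 2 = 2 * (L - τ) := by
      have : ‖-g - dd a b‖ ^ 2 = dt g g + 2 * dt g (dd a b) + dt (dd a b) (dd a b) := by
        rw [norm_sq_dt]
        unfold dt
        simp
        ring
      rw [this, hgg', hdd]
      linarith
    have hLn : 2 * (n : ℝ) ≤ L := by linarith
    have hn0 : (0 : ℝ) < n := by linarith
    have h1 : ‖-g - dd a b‖ ^ 2 ≤ (1 / n) ^ 2 := by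
      have e1 : 2 * (n : ℝ) * ‖-g - dd a b‖ ^ 2 ≤ 2 * (1 / n) := by
        have := mul_le_mul_of_nonneg_right hLn (sq_nonneg ‖-g - dd a b‖)
        linarith
      have e2 : (1 / (n : ℝ)) ^ 2 = (2 * (1 / n)) / (2 * n) := by
        field_simp
      rw [e2, le_div_iff₀ (by positivity)]
      linarith
    exact le_of_sq_le_sq h1 (by positivity)
  · have : ll a b = 2 * S := rfl
    rw [this]
    have e1 : L - (n * (2 * S) + 2 * (a - p) * a / S) = (L - τ) + σ * (a * Real.cos α - b * Real.sin α) / S := by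
      rw [hτ1]
      ring
    rw [e1]
    refine (abs_add_le _ _).trans ?_
    rw [abs_of_nonneg (sub_nonneg.2 hτL)]
    linarith

theorem t_CR : S_TR → S_SD → S_UN → S_AV2 → S_CR2 := by
  intro hTR hSD hUN hAV a b v α h ε hε
  obtain ⟨η0, hη0, N0, hN⟩ := hAV a b v α h
  obtain ⟨ht1, ht2, ht3, ht4⟩ := trig h
  obtain ⟨M, hM⟩ := exists_nat_gt (4 / ε)
  refine ⟨max (max N0 M) 1, ?_⟩
  intro n hn
  have hn1 : N0 ≤ n := ((le_max_left _ _).trans (le_max_left _ _)).trans hn
  have hn2 : M ≤ n := ((le_max_right _ _).trans (le_max_left _ _)).trans hn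
  have hn3 : 1 ≤ n := (le_max_right _ _).trans hn
  have hn3' : (1 : ℝ) ≤ n := by exact_mod_cast hn3
  have hn0 : (0 : ℝ) < n := by linarith
  have hn4 : 1 / (n : ℝ) < ε / 4 := by
    have e1 : 4 / ε < n := lt_of_lt_of_le hM (by exact_mod_cast hn2)
    rw [div_lt_iff₀ hε] at e1
    rw [div_lt_iff₀ hn0]
    linarith
  -- the size of `η`
  obtain ⟨m, hm0, hm1, hm2, hm3⟩ : ∃ m : ℝ, 0 < m ∧ m < η0 / n ∧ m < ε / 8 ∧ m < 1 / 100 := by
    have e0 : 0 < η0 / n := by positivity
    refine ⟨min (min (η0 / n) (ε / 8)) (1 / 100) / 2, ?_, ?_, ?_, ?_⟩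
    · have : 0 < min (min (η0 / n) (ε / 8)) (1 / 100) :=
        lt_min (lt_min e0 (by linarith)) (by norm_num)
      linarith
    all_goals
      have h0 : 0 < min (min (η0 / n) (ε / 8)) (1 / 100) :=
        lt_min (lt_min e0 (by linarith)) (by norm_num)
      have h1 : min (min (η0 / n) (ε / 8)) (1 / 100) ≤ η0 / n := (min_le_left _ _).trans (min_le_left _ _)
      have h2 : min (min (η0 / n) (ε / 8)) (1 / 100) ≤ ε / 8 := (min_le_left _ _).trans (min_le_right _ _)
      have h3 : min (min (η0 / n) (ε / 8)) (1 / 100) ≤ 1 / 100 := min_le_right _ _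
      linarith
  set A := vA v α m with hA
  set C : ℂ := ⟨-(2 * a * (n + 1)), -(2 * b * n)⟩ with hC
  -- the excluded values
  set Bad : Set ℝ := Set.range (fun k : ℤ × ℤ => cr (C - VV v α - A) (⟨k.1 * a, k.2 * b⟩ - A) /
    cr ⟨Real.cos α, -Real.sin α⟩ (⟨k.1 * a, k.2 * b⟩ - A)) with hBad
  have hcount : Bad.Countable := Set.countable_range _
  obtain ⟨η', hη'1, hη'2⟩ := (hcount.dense_compl ℝ).exists_between hm0
  obtain ⟨hη'0, hη'm⟩ := hη'2
  set A' := vA v α η' with hA'
  obtain ⟨a1, a2, a3, a4⟩ := vA_box h hm0 hm3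
  obtain ⟨b1, b2, b3, b4⟩ := vA_box h hη'0 (hη'm.trans hm3)
  have a5 := vA_cut h m
  have b5 := vA_cut h η'
  rw [← hA] at a1 a2 a3 a4 a5
  rw [← hA'] at b1 b2 b3 b4 b5
  obtain ⟨o1, o2, o3, o4, o5, o6, o7, o8⟩ := id h
  set D : ℂ := vB a b v α η' n - A with hD
  have hDre : D.re = -(2 * a * n + 2 * (a - v / Real.sin α) + (m + η') * Real.cos α) := by
    rw [hD, hA]
    unfold vB
    rw [Complex.sub_re, Complex.sub_re, vA_re, vA_re]
    simp only
    ring
  have hDim : D.im = -(2 * b * n - (m + η') * Real.sin α) := by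
    rw [hD, hA]
    unfold vB
    rw [Complex.sub_im, Complex.sub_im, vA_im, vA_im]
    simp only
    ring
  have hp1 : v / Real.sin α < 0.22 := by
    rw [div_lt_iff₀ (by linarith)]
    linarith
  have hDre' : D.re < 0 := by
    rw [hDre]
    have : 0 < (m + η') * Real.cos α := by positivity
    nlinarith
  have hDim' : D.im < 0 := by
    rw [hDim]
    have : (m + η') * Real.sin α ≤ 1 / 50 := by nlinarith
    nlinarith
  set L := ‖D‖ with hL
  have hL0 : 0 < L := by
    rw [hL]
    apply norm_pos_iff.2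
    intro hc
    rw [hc] at hDre'
    simp at hDre'
  set g : ℂ := L⁻¹ • D with hg
  have hLg : L • g = D := by
    rw [hg, smul_smul, mul_inv_cancel₀ hL0.ne', one_smul]
  have hgn : ‖g‖ = 1 := by
    rw [hg, norm_smul, norm_inv, Real.norm_of_nonneg hL0.le, ← hL, inv_mul_cancel₀ hL0.ne']
  have hgre : g.re < 0 := by
    have : g.re = L⁻¹ * D.re := by simp [hg]
    rw [this]
    exact mul_neg_of_pos_of_neg (by positivity) hDre'
  have hgim : g.im < 0 := by
    have : g.im = L⁻¹ * D.im := by simp [hg]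
    rw [this]
    exact mul_neg_of_pos_of_neg (by positivity) hDim'
  have hsg : ∀ s : ℝ, s • g = (s / L) • D := by
    intro s
    rw [hg, smul_smul, div_eq_mul_inv]
  obtain ⟨E1, E2⟩ := est h (m + η') (by positivity) (by linarith) n hn3 (-D.re) (-D.im)
    (by rw [hDre]; ring) (by rw [hDim]; ring) L hL0
    (by rw [hL, norm_sq_dt]; unfold dt; ring) g (by
      rw [hLg]; apply Complex.ext <;> simp)
  obtain ⟨u0, hu0, hu⟩ := cross hTR hSD hUN h A A' g L n a1 a2 a3 a5 a4 b1 b2 b3 b5 b4 hgn hgre hgim hL0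
    (by
      have : L * g.re = D.re := by
        have := congrArg Complex.re hLg
        simpa using this
      rw [this, hD]
      simp [vB, hA'])
    (by
      have : L * g.im = D.im := by
        have := congrArg Complex.im hLg
        simpa using this
      rw [this, hD]
      simp [vB, hA'])
    (by
      intro s hs0 hs1 i j
      rw [hsg]
      exact hN n hn1 m η' hm0 hm1 hη'0 (hη'm.trans hm1) (s / L) (by positivity)
        (by rw [div_lt_one hL0]; exact hs1) i j)
    (by
      rintro s hs0 hs1 ⟨⟨k, hk⟩, ⟨l, hl⟩⟩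
      apply hη'1
      rw [hBad]
      refine ⟨(k, l), ?_⟩
      have hP : (⟨k * a, l * b⟩ : ℂ) - A = (s / L) • D := by
        rw [← hsg]
        apply Complex.ext
        · rw [Complex.sub_re]
          simp only
          rw [← hk]
          simp
        · rw [Complex.sub_im]
          simp only
          rw [← hl]
          simp
      simp only
      rw [hP]
      have hne : cr ⟨Real.cos α, -Real.sin α⟩ ((s / L) • D) ≠ 0 := by
        have : cr ⟨Real.cos α, -Real.sin α⟩ ((s / L) • D) = (s / L) * (Real.cos α * D.im + Real.sin α * D.re) := by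
          unfold cr
          simp
          ring
        rw [this]
        have e1 : 0 < s / L := by positivity
        have e2 : Real.cos α * D.im + Real.sin α * D.re < 0 := by nlinarith
        exact (mul_neg_of_pos_of_neg e1 e2).ne
      rw [div_eq_iff hne]
      have hE : C - VV v α - A = D + η' • ⟨Real.cos α, -Real.sin α⟩ := by
        rw [hD, hC]
        unfold vB vA
        ring
      rw [hE]
      unfold cr
      simp
      ring)
  refine ⟨A', rf (nS α 3) (-g), A, rf (nS α 3) (-g), L, u0, ?_, ?_, ?_, ?_, b4, ?_, ?_, ?_, ?_, a4, hu0, ?_, hu⟩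
  · rw [hA', vA_near hη'0.le]
    linarith
  · unfold es
    rw [rf_sub, norm_rf _ _ (n3_unit α)]
    linarith
  · rw [norm_rf _ _ (n3_unit α), norm_neg, hgn]
  · rw [dt_n3, b5]
  · rw [hA, vA_near hm0.le]
    linarith
  · unfold es
    rw [rf_sub, norm_rf _ _ (n3_unit α)]
    linarith
  · rw [norm_rf _ _ (n3_unit α), norm_neg, hgn]
  · rw [dt_n3, a5]
  · linarith

end Pool.Agent.U776.BM.CR
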