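import Pool.Agent.U856.BM.Stm1

/-!
# Project BM: corrected statements AV2 and CR2 (the two ends of the crossing segment are different)

With the same `η` at both ends the midpoint of the crossing segment is the grid point `(-a (n + 1), -b n)`.
-/

set_option autoImplicit false

open Set Filter Topology ComplexConjugate Pool.Agent.U856.BM

namespace Pool.Agent.U776.BM

/-- **AV2** The crossing segment from `vA v α η` to `vB a b v α η' n` avoids the rhombi. -/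
def S_AV2 : Prop := ∀ a b v α : ℝ, Ok a b v α → ∃ η0 : ℝ, 0 < η0 ∧ ∃ N : ℕ, ∀ n : ℕ, N ≤ n → ∀ η η' : ℝ,
  0 < η → η < η0 / n → 0 < η' → η' < η0 / n → ∀ s : ℝ, 0 < s → s < 1 → ∀ i j : ℤ,
    v < |(vA v α η + s • (vB a b v α η' n - vA v α η)).re - 2 * a * i| * Real.sin α +
      |(vA v α η + s • (vB a b v α η' n - vA v α η)).im - 2 * b * j| * Real.cos α

/-- **CR2** Crossing the cylinder: `n` turns, from near `VV` (reversed separatrix) to near `VV` (separatrix). -/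
def S_CR2 : Prop := ∀ a b v α : ℝ, Ok a b v α → ∀ ε : ℝ, 0 < ε → ∃ N : ℕ, ∀ n : ℕ, N ≤ n →
  ∃ (x e x' e' : ℂ) (t u0 : ℝ),
  ‖x - VV v α‖ < ε ∧ ‖e - es a b α‖ < ε ∧ ‖e‖ = 1 ∧ dt (nS α 3) x = -v ∧ x.im < 0 ∧
  ‖x' - VV v α‖ < ε ∧ ‖e' - es a b α‖ < ε ∧ ‖e'‖ = 1 ∧ dt (nS α 3) x' = -v ∧ x'.im < 0 ∧ 0 < u0 ∧
  |t - (n * ll a b + 2 * (a - v / Real.sin α) * a / √(a ^ 2 + b ^ 2))| < ε ∧
  ∀ u u' : ℝ, 0 < u → u < u0 → 0 < u' → u' < u0 →
    Orb (Tb a b v α) (x' + u' • e') (-e') (u' + t + u) (x + u • e) e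

end Pool.Agent.U776.BM
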