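import Pool.Agent.U856.BM.Stm3

/-!
# Project BM, package N2: the algebra at the generic point
-/

set_option autoImplicit false

open Set Filter Topology ComplexConjugate Pool.Agent.U856.BM MvPolynomial

namespace Pool.Agent.U776.BM.N2

/-- real algebraic numbers -/
abbrev Alg (x : ℝ) : Prop := IsAlgebraic ℚ x

theorem alg_sum {ι : Type} (s : Finset ι) (f : ι → ℝ) (h : ∀ i ∈ s, Alg (f i)) : Alg (∑ i ∈ s, f i) := by
  classical
  induction s using Finset.induction_on with
  | empty => simpa using (isAlgebraic_zero : IsAlgebraic ℚ (0 : ℝ))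
  | insert x s hx ih =>
    rw [Finset.sum_insert hx]
    exact (h x (Finset.mem_insert_self x s)).add (ih (fun i hi => h i (Finset.mem_insert_of_mem hi)))

/-- polynomials with algebraic coefficients -/
def AP (F : MvPolynomial (Fin 3) ℝ) : Prop := ∀ m, IsAlgebraic ℚ (F.coeff m)

theorem AP.add {F H : MvPolynomial (Fin 3) ℝ} (hF : AP F) (hH : AP H) : AP (F + H) := fun m => by
  rw [coeff_add]; exact (hF m).add (hH m)

theorem AP.neg {F : MvPolynomial (Fin 3) ℝ} (hF : AP F) : AP (-F) := fun m => by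
  rw [coeff_neg]; exact (hF m).neg

theorem AP.sub {F H : MvPolynomial (Fin 3) ℝ} (hF : AP F) (hH : AP H) : AP (F - H) := by
  rw [sub_eq_add_neg]; exact hF.add hH.neg

theorem AP.mul {F H : MvPolynomial (Fin 3) ℝ} (hF : AP F) (hH : AP H) : AP (F * H) := fun m => by
  rw [coeff_mul]; exact alg_sum _ _ (fun i _ => (hF i.1).mul (hH i.2))

theorem AP.C {x : ℝ} (hx : Alg x) : AP (C x) := fun m => by
  rw [coeff_C]
  split_ifs
  · exact hx
  · exact isAlgebraic_zero

theorem AP.zero : AP 0 := fun m => by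
  rw [coeff_zero]; exact isAlgebraic_zero

theorem AP.X (i : Fin 3) : AP (X i) := fun m => by
  classical
  rw [coeff_X]
  split_ifs
  · exact isAlgebraic_one
  · exact isAlgebraic_zero

theorem AP.sum {ι : Type} (s : Finset ι) (f : ι → MvPolynomial (Fin 3) ℝ) (h : ∀ i ∈ s, AP (f i)) :
    AP (∑ i ∈ s, f i) := by
  classical
  induction s using Finset.induction_on with
  | empty => simpa using AP.zero
  | insert x s hx ih =>
    rw [Finset.sum_insert hx]
    exact (h x (Finset.mem_insert_self x s)).add (ih (fun i hi => h i (Finset.mem_insert_of_mem hi)))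

theorem alg_int (n : ℤ) : Alg (n : ℝ) := by
  have := isAlgebraic_algebraMap (R := ℚ) (A := ℝ) (n : ℚ)
  simpa using this

theorem alg_nat (n : ℕ) : Alg (n : ℝ) := by
  have := isAlgebraic_algebraMap (R := ℚ) (A := ℝ) (n : ℚ)
  simpa using this

theorem alg_re_im (w : ℂ) (N : ℕ) (hN : 0 < N) (h : w ^ N = 1) : Alg w.re ∧ Alg w.im := by
  have h1 : IsAlgebraic ℚ w := IsAlgebraic.of_pow hN (by rw [h]; exact isAlgebraic_one)
  have h2 : IsAlgebraic ℚ (conj w) := IsAlgebraic.of_pow hN (by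
    rw [← map_pow, h, map_one]; exact isAlgebraic_one)
  have hI : IsAlgebraic ℚ Complex.I := IsAlgebraic.of_pow (n := 4) (by norm_num) (by
    rw [Complex.I_pow_four]; exact isAlgebraic_one)
  have h20 : IsAlgebraic ℚ (2 : ℂ)⁻¹ := by
    have := isAlgebraic_algebraMap (R := ℚ) (A := ℂ) ((2 : ℚ)⁻¹)
    simpa using this
  have e1 : ((w.re : ℝ) : ℂ) = (w + conj w) * (2 : ℂ)⁻¹ := by
    apply Complex.ext <;> simp
    ring
  have e2 : ((w.im : ℝ) : ℂ) = (w - conj w) * (2 : ℂ)⁻¹ * (-Complex.I) := by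
    apply Complex.ext <;> simp
    ring
  constructor
  · have h3 : IsAlgebraic ℚ (algebraMap ℝ ℂ w.re) := by
      change IsAlgebraic ℚ ((w.re : ℝ) : ℂ)
      rw [e1]
      exact (h1.add h2).mul h20
    exact (isAlgebraic_algebraMap_iff (algebraMap ℝ ℂ).injective).1 h3
  · have h3 : IsAlgebraic ℚ (algebraMap ℝ ℂ w.im) := by
      change IsAlgebraic ℚ ((w.im : ℝ) : ℂ)
      rw [e2]
      exact ((h1.sub h2).mul h20).mul hI.neg
    exact (isAlgebraic_algebraMap_iff (algebraMap ℝ ℂ).injective).1 h3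

theorem alg_trig {a b v α : ℝ} {h q : ℕ} (hR : Rat a b v α h q) : Alg (Real.sin α) ∧ Alg (Real.cos α) := by
  obtain ⟨-, -, h3, h4, h5⟩ := hR
  have hq : (q : ℂ) ≠ 0 := by
    have : q ≠ 0 := by omega
    exact_mod_cast this
  have e : (Complex.exp ((α : ℂ) * Complex.I)) ^ (2 * q) = 1 := by
    rw [← Complex.exp_nat_mul, Complex.exp_eq_one_iff]
    refine ⟨h, ?_⟩
    rw [h5]
    push_cast
    field_simp
  have := alg_re_im _ (2 * q) (by omega) e
  rw [Complex.exp_ofReal_mul_I_re, Complex.exp_ofReal_mul_I_im] at this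
  exact ⟨this.2, this.1⟩

theorem alg_G {a b v α : ℝ} {h q : ℕ} (hR : Rat a b v α h q) (i : St) (hi : Al q i) (j : Fin 5) :
    Alg (G i (nS α j)).re ∧ Alg (G i (nS α j)).im := by
  obtain ⟨s1, s2⟩ := alg_trig hR
  have hn : Alg (nS α j).re ∧ Alg (nS α j).im := by
    fin_cases j
    · exact ⟨by simpa [nS] using isAlgebraic_one.neg, by simpa [nS] using isAlgebraic_zero⟩
    · exact ⟨by simpa [nS] using isAlgebraic_zero, by simpa [nS] using isAlgebraic_one.neg⟩
    · exact ⟨by simpa [nS] using isAlgebraic_one, by simpa [nS] using isAlgebraic_zero⟩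
    · exact ⟨s1, s2⟩
    · exact ⟨by simpa [nS] using isAlgebraic_zero, by simpa [nS] using isAlgebraic_one⟩
  have hq : 0 < 2 * q := by
    have := hR.2.2.2.1
    omega
  obtain ⟨w1, w2⟩ := alg_re_im i.1 (2 * q) hq hi
  unfold G
  rw [Complex.mul_re, Complex.mul_im]
  split_ifs
  · exact ⟨(w1.mul hn.1).sub (w2.mul hn.2), (w1.mul hn.2).add (w2.mul hn.1)⟩
  · rw [Complex.conj_re, Complex.conj_im]
    exact ⟨(w1.mul hn.1).sub (w2.mul hn.2.neg), (w1.mul hn.2.neg).add (w2.mul hn.1)⟩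

/-- the forms -/
noncomputable def Qp (c : Fin 5 → ℝ) : MvPolynomial (Fin 3) ℝ :=
  C (c 0) * (X 0 * X 0) + C (c 1) * (X 0 * X 1) + C (c 2) * (X 1 * X 1) + C (c 3) * (X 0 * X 2) +
    C (c 4) * (X 1 * X 2)

theorem AP_Qp (c : Fin 5 → ℝ) (hc : ∀ i, Alg (c i)) : AP (Qp c) := by
  unfold Qp
  exact (((((AP.C (hc 0)).mul ((AP.X 0).mul (AP.X 0))).add ((AP.C (hc 1)).mul ((AP.X 0).mul (AP.X 1)))).add
    ((AP.C (hc 2)).mul ((AP.X 1).mul (AP.X 1)))).add ((AP.C (hc 3)).mul ((AP.X 0).mul (AP.X 2)))).add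
    ((AP.C (hc 4)).mul ((AP.X 1).mul (AP.X 2)))

theorem eval_Qp (c : Fin 5 → ℝ) (A B V : ℝ) : eval ![A, B, V] (Qp c) =
    c 0 * A ^ 2 + c 1 * A * B + c 2 * B ^ 2 + c 3 * A * V + c 4 * B * V := by
  simp [Qp]
  ring

/-- the offsets -/
noncomputable def Op : Fin 5 → MvPolynomial (Fin 3) ℝ := ![X 0, X 1, 0, -X 2, 0]

theorem AP_Op (j : Fin 5) : AP (Op j) := by
  fin_cases j
  · exact AP.X 0
  · exact AP.X 1
  · exact AP.zero
  · exact (AP.X 2).neg
  · exact AP.zero

theorem eval_Op (j : Fin 5) (A B V : ℝ) : eval ![A, B, V] (Op j) = oS A B V j := by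
  fin_cases j <;> simp [Op, oS]

theorem gen_all {a b v : ℝ} (hG : Gen a b v) (F : MvPolynomial (Fin 3) ℝ) (hF : AP F)
    (h0 : eval ![a, b, v] F = 0) (A B V : ℝ) : eval ![A, B, V] F = 0 := by
  rw [hG F hF h0, map_zero]

theorem t_N2 : S_N2 := by
  classical
  intro a b v α h q hR k hk κ hκ len st jj n hlen hst hpos hneg hrel
  have hG : Gen a b v := hR.2.1
  obtain ⟨o1, o2, o3, o4, o5, o6, o7, o8⟩ := hR.1
  have ha : 0 < a := by linarith
  have hb : 0 < b := by linarith
  have hsin : 0 < Real.sin α := Real.sin_pos_of_pos_of_lt_pi (by linarith) (by linarith [Real.pi_gt_three])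
  have hcos : 0 < Real.cos α := Real.cos_pos_of_mem_Ioo (by
    have := Real.pi_gt_three
    constructor <;> linarith)
  set L := √(a ^ 2 + b ^ 2) with hL
  have hL2 : L ^ 2 = a ^ 2 + b ^ 2 := Real.sq_sqrt (by positivity)
  have hL0 : 0 < L := Real.sqrt_pos.2 (by positivity)
  choose cc hcc1 hcc2 using hlen
  obtain ⟨s1, s2⟩ := alg_trig hR
  -- the scalar product
  have hdt : ∀ z : ℂ, L * dt (dd a b) z = a * z.re + b * z.im := by
    intro z
    unfold dt dd
    simp only
    rw [← hL]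
    field_simp
  set x : κ → ℝ := fun c => (G (st c) (nS α (jj c))).re with hx
  set y : κ → ℝ := fun c => (G (st c) (nS α (jj c))).im with hy
  have hxa : ∀ c, Alg (x c) := fun c => (alg_G hR (st c) (hst c) (jj c)).1
  have hya : ∀ c, Alg (y c) := fun c => (alg_G hR (st c) (hst c) (jj c)).2
  -- the first polynomial
  set F1 : MvPolynomial (Fin 3) ℝ := ∑ c, Qp (cc c) * (C (k : ℝ) * (Op (jj c) * (C (x c) * X 0 + C (y c) * X 1)) +
    C (n c : ℝ) * (X 0 * X 0 + X 1 * X 1)) with hF1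
  have hF1a : AP F1 := by
    rw [hF1]
    refine AP.sum _ _ (fun c _ => ?_)
    exact (AP_Qp _ (hcc1 c)).mul (((AP.C (alg_nat k)).mul ((AP_Op _).mul
      (((AP.C (hxa c)).mul (AP.X 0)).add ((AP.C (hya c)).mul (AP.X 1))))).add
      ((AP.C (alg_int (n c))).mul (((AP.X 0).mul (AP.X 0)).add ((AP.X 1).mul (AP.X 1)))))
  have hF1e : ∀ A B V : ℝ, eval ![A, B, V] F1 = ∑ c, (cc c 0 * A ^ 2 + cc c 1 * A * B + cc c 2 * B ^ 2 +
      cc c 3 * A * V + cc c 4 * B * V) * (k * (oS A B V (jj c) * (x c * A + y c * B)) +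
      n c * (A ^ 2 + B ^ 2)) := by
    intro A B V
    rw [hF1, map_sum]
    refine Finset.sum_congr rfl (fun c _ => ?_)
    rw [map_mul, eval_Qp]
    simp only [map_add, map_mul, eval_Op, eval_C, eval_X, Matrix.cons_val_zero, Matrix.cons_val_one]
    ring
  have hF10 : eval ![a, b, v] F1 = 0 := by
    rw [hF1e]
    have : ∀ c, (cc c 0 * a ^ 2 + cc c 1 * a * b + cc c 2 * b ^ 2 + cc c 3 * a * v + cc c 4 * b * v) *
        (k * (oS a b v (jj c) * (x c * a + y c * b)) + n c * (a ^ 2 + b ^ 2)) =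
        L ^ 3 * (len c * (k * rh a b v α (st c) (jj c) + n c)) := by
      intro c
      rw [← hcc2 c, ← hL]
      have e1 : x c * a + y c * b = L * dt (dd a b) (G (st c) (nS α (jj c))) := by
        rw [hdt]; ring
      rw [e1, ← hL2]
      unfold rh ll
      rw [← hL]
      field_simp
    rw [Finset.sum_congr rfl (fun c _ => this c), ← Finset.mul_sum, hrel, mul_zero]
  have hV : ∀ V : ℝ, ∑ c, (cc c 0 * a ^ 2 + cc c 1 * a * b + cc c 2 * b ^ 2 +
      cc c 3 * a * V + cc c 4 * b * V) * (k * (oS a b V (jj c) * (x c * a + y c * b)) +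
      n c * (a ^ 2 + b ^ 2)) = 0 := by
    intro V
    rw [← hF1e]
    exact gen_all hG F1 hF1a hF10 a b V
  -- the coefficient of `v ^ 2`
  have hsq : ∑ c, (if jj c = 3 then (cc c 3 * a + cc c 4 * b) * (x c * a + y c * b) else 0) = 0 := by
    have e1 := hV 1
    have e2 := hV (-1)
    have e3 := hV 0
    have e4 : ∑ c, ((cc c 0 * a ^ 2 + cc c 1 * a * b + cc c 2 * b ^ 2 +
      cc c 3 * a * 1 + cc c 4 * b * 1) * (k * (oS a b 1 (jj c) * (x c * a + y c * b)) +
      n c * (a ^ 2 + b ^ 2)) + (cc c 0 * a ^ 2 + cc c 1 * a * b + cc c 2 * b ^ 2 +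
      cc c 3 * a * (-1) + cc c 4 * b * (-1)) * (k * (oS a b (-1) (jj c) * (x c * a + y c * b)) +
      n c * (a ^ 2 + b ^ 2)) - 2 * ((cc c 0 * a ^ 2 + cc c 1 * a * b + cc c 2 * b ^ 2 +
      cc c 3 * a * 0 + cc c 4 * b * 0) * (k * (oS a b 0 (jj c) * (x c * a + y c * b)) +
      n c * (a ^ 2 + b ^ 2)))) = 0 := by
      rw [Finset.sum_sub_distrib, Finset.sum_add_distrib, ← Finset.mul_sum, e1, e2, e3]
      ring
    have e5 : ∀ c, ((cc c 0 * a ^ 2 + cc c 1 * a * b + cc c 2 * b ^ 2 +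
      cc c 3 * a * 1 + cc c 4 * b * 1) * (k * (oS a b 1 (jj c) * (x c * a + y c * b)) +
      n c * (a ^ 2 + b ^ 2)) + (cc c 0 * a ^ 2 + cc c 1 * a * b + cc c 2 * b ^ 2 +
      cc c 3 * a * (-1) + cc c 4 * b * (-1)) * (k * (oS a b (-1) (jj c) * (x c * a + y c * b)) +
      n c * (a ^ 2 + b ^ 2)) - 2 * ((cc c 0 * a ^ 2 + cc c 1 * a * b + cc c 2 * b ^ 2 +
      cc c 3 * a * 0 + cc c 4 * b * 0) * (k * (oS a b 0 (jj c) * (x c * a + y c * b)) +
      n c * (a ^ 2 + b ^ 2)))) = -2 * k *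
        (if jj c = 3 then (cc c 3 * a + cc c 4 * b) * (x c * a + y c * b) else 0) := by
      intro c
      generalize x c = X
      generalize y c = Y
      generalize jj c = j
      fin_cases j <;> simp [oS] <;> ring
    rw [Finset.sum_congr rfl (fun c _ => e5 c), ← Finset.mul_sum] at e4
    have hk0 : (k : ℝ) ≠ 0 := by
      have : k ≠ 0 := by omega
      exact_mod_cast this
    rcases mul_eq_zero.1 e4 with h1 | h1
    · exfalso
      apply hk0
      linarith
    · exact h1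
  -- the sum conditions
  have hS1 : ∀ i, Al q i → 0 < dt (dd a b) (G i (nS α 3)) → ∀ S : Finset κ, (∀ c, c ∈ S ↔ st c = i ∧ jj c = 3) →
      ∑ c ∈ S, (cc c 3 * a + cc c 4 * b) =
        (a * (G i (nS α 3)).re + b * (G i (nS α 3)).im) / (Real.sin α * Real.cos α) := by
    intro i hi hd S hS
    obtain ⟨g1, g2⟩ := alg_G hR i hi 3
    set u1 := (G i (nS α 3)).re with hu1
    set u2 := (G i (nS α 3)).im with hu2
    set F2 : MvPolynomial (Fin 3) ℝ := ∑ c ∈ S, Qp (cc c) -
      C ((Real.sin α)⁻¹ * (Real.cos α)⁻¹) * (X 2 * (C u1 * X 0 + C u2 * X 1)) with hF2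
    have hF2a : AP F2 := by
      rw [hF2]
      refine (AP.sum _ _ (fun c _ => AP_Qp _ (hcc1 c))).sub ?_
      exact (AP.C (s1.inv.mul s2.inv)).mul ((AP.X 2).mul
        (((AP.C g1).mul (AP.X 0)).add ((AP.C g2).mul (AP.X 1))))
    have hF2e : ∀ A B V : ℝ, eval ![A, B, V] F2 = ∑ c ∈ S, (cc c 0 * A ^ 2 + cc c 1 * A * B + cc c 2 * B ^ 2 +
        cc c 3 * A * V + cc c 4 * B * V) - (Real.sin α)⁻¹ * (Real.cos α)⁻¹ * (V * (u1 * A + u2 * B)) := by
      intro A B V
      rw [hF2, map_sub, map_sum]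
      congr 1
      · exact Finset.sum_congr rfl (fun c _ => eval_Qp _ _ _ _)
      · simp
    have hF20 : eval ![a, b, v] F2 = 0 := by
      rw [hF2e, Finset.sum_congr rfl (fun c _ => (hcc2 c).symm), ← Finset.sum_mul, hpos i hi hd S hS]
      have e1 : u1 * a + u2 * b = L * dt (dd a b) (G i (nS α 3)) := by
        rw [hdt]; ring
      rw [e1]
      field_simp
      ring
    have e1 := gen_all hG F2 hF2a hF20 a b 1
    have e2 := gen_all hG F2 hF2a hF20 a b 0
    rw [hF2e] at e1 e2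
    have e3 : ∑ c ∈ S, (cc c 3 * a + cc c 4 * b) = ∑ c ∈ S, (cc c 0 * a ^ 2 + cc c 1 * a * b + cc c 2 * b ^ 2 +
        cc c 3 * a * 1 + cc c 4 * b * 1) - ∑ c ∈ S, (cc c 0 * a ^ 2 + cc c 1 * a * b + cc c 2 * b ^ 2 +
        cc c 3 * a * 0 + cc c 4 * b * 0) := by
      rw [← Finset.sum_sub_distrib]
      refine Finset.sum_congr rfl (fun c _ => by ring)
    rw [e3]
    rw [div_eq_mul_inv, mul_inv]
    linarith
  have hS2 : ∀ i, Al q i → dt (dd a b) (G i (nS α 3)) ≤ 0 → ∀ c, st c = i → jj c = 3 →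
      cc c 3 * a + cc c 4 * b = 0 := by
    intro i hi hd c hc1 hc2
    have h0 := hneg i hi hd c hc1 hc2
    have h1 := hcc2 c
    rw [h0, zero_mul] at h1
    have h2 : eval ![a, b, v] (Qp (cc c)) = 0 := by rw [eval_Qp, ← h1]
    have e1 := gen_all hG _ (AP_Qp _ (hcc1 c)) h2 a b 1
    have e2 := gen_all hG _ (AP_Qp _ (hcc1 c)) h2 a b 0
    rw [eval_Qp] at e1 e2
    linarith
  -- the grouping by states
  have hgroup : ∑ c, (if jj c = 3 then (cc c 3 * a + cc c 4 * b) * (x c * a + y c * b) else 0) =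
      ∑ i ∈ Finset.univ.image st, ∑ c ∈ Finset.univ.filter (fun c => st c = i ∧ jj c = 3),
        (cc c 3 * a + cc c 4 * b) * (x c * a + y c * b) := by
    rw [← Finset.sum_fiberwise_of_maps_to (s := Finset.univ) (t := Finset.univ.image st) (g := st)
      (fun c _ => Finset.mem_image_of_mem st (Finset.mem_univ c))]
    refine Finset.sum_congr rfl (fun i _ => ?_)
    rw [← Finset.filter_filter, Finset.sum_filter (fun c => jj c = 3)]
  rw [hgroup] at hsq
  have hterm : ∀ i ∈ Finset.univ.image st, ∑ c ∈ Finset.univ.filter (fun c => st c = i ∧ jj c = 3),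
        (cc c 3 * a + cc c 4 * b) * (x c * a + y c * b) =
        if 0 < dt (dd a b) (G i (nS α 3)) then
          (a * (G i (nS α 3)).re + b * (G i (nS α 3)).im) ^ 2 / (Real.sin α * Real.cos α) else 0 := by
    intro i hi
    obtain ⟨c0, -, hc0⟩ := Finset.mem_image.1 hi
    have hAl : Al q i := hc0 ▸ hst c0
    split_ifs with hd
    · have e1 : ∀ c ∈ Finset.univ.filter (fun c => st c = i ∧ jj c = 3),
          (cc c 3 * a + cc c 4 * b) * (x c * a + y c * b) =
          (cc c 3 * a + cc c 4 * b) * (a * (G i (nS α 3)).re + b * (G i (nS α 3)).im) := by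
        intro c hc
        rw [Finset.mem_filter] at hc
        have e2 : x c = (G i (nS α 3)).re := by
          simp only [hx]
          rw [hc.2.1, hc.2.2]
        have e3 : y c = (G i (nS α 3)).im := by
          simp only [hy]
          rw [hc.2.1, hc.2.2]
        rw [e2, e3]
        ring
      rw [Finset.sum_congr rfl e1, ← Finset.sum_mul, hS1 i hAl hd _ (fun c => by simp)]
      ring
    · apply Finset.sum_eq_zero
      intro c hc
      rw [Finset.mem_filter] at hc
      rw [hS2 i hAl (not_lt.1 hd) c hc.2.1 hc.2.2, zero_mul]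
  rw [Finset.sum_congr rfl hterm] at hsq
  -- the state `(1, true)`
  have hi0 : Al q ((1, true) : St) := by
    unfold Al
    simp
  have hd0 : L * dt (dd a b) (G ((1, true) : St) (nS α 3)) = a * Real.sin α + b * Real.cos α := by
    rw [hdt]
    simp [G, nS]
  have hd1 : 0 < dt (dd a b) (G ((1, true) : St) (nS α 3)) := by
    have : 0 < L * dt (dd a b) (G ((1, true) : St) (nS α 3)) := by
      rw [hd0]; positivity
    exact (mul_pos_iff_of_pos_left hL0).1 this
  have hmem : ((1, true) : St) ∈ Finset.univ.image st := by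
    by_contra hc
    have e1 := hpos _ hi0 hd1 ∅ (fun c => by
      constructor
      · intro h'; simp at h'
      · rintro ⟨h1, -⟩
        exact absurd (Finset.mem_image.2 ⟨c, Finset.mem_univ c, h1⟩) hc)
    rw [Finset.sum_empty] at e1
    have : 0 < v * dt (dd a b) (G ((1, true) : St) (nS α 3)) / (Real.sin α * Real.cos α) := by
      have : 0 < v := by linarith
      positivity
    linarith
  have hpos' : 0 < ∑ i ∈ Finset.univ.image st, (if 0 < dt (dd a b) (G i (nS α 3)) then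
          (a * (G i (nS α 3)).re + b * (G i (nS α 3)).im) ^ 2 / (Real.sin α * Real.cos α) else 0) := by
    refine Finset.sum_pos' (fun i _ => ?_) ⟨_, hmem, ?_⟩
    · split_ifs
      · positivity
      · exact le_rfl
    · rw [if_pos hd1, ← hdt, hd0]
      positivity
  linarith

end Pool.Agent.U776.BM.N2
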